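import Pool.Agent.helper83.ORE.SpecDE

/-!
# Project ore, row DIO: the ring homomorphism `io`
-/

set_option autoImplicit false

namespace Pool.Agent.ORE

open Module Pool.Agent.GS

/-- the relation for `ω' = a + h/σ`. -/
lemma DIO_rel {K M : Type} [Field K] [Field M] [Algebra K M] (h2 : (2 : M) = 0) (σ a r : K)
    (h : M) (hσ : σ ≠ 0) (har : a ^ 2 + a + (σ⁻¹) ^ 2 = r)
    (hh : h ^ 2 + algebraMap K M σ * h + 1 = 0) :
    (algebraMap K M a + h * (algebraMap K M σ)⁻¹) ^ 2 =
      (algebraMap K M a + h * (algebraMap K M σ)⁻¹) + algebraMap K M r := by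
  have hS : algebraMap K M σ ≠ 0 := by
    intro h0
    exact hσ ((map_eq_zero (algebraMap K M)).1 h0)
  have h1 : algebraMap K M r = (algebraMap K M a) ^ 2 + algebraMap K M a +
      ((algebraMap K M σ)⁻¹) ^ 2 := by
    rw [← har, map_add, map_add, map_pow, map_pow, map_inv₀]
  rw [h1]
  generalize algebraMap K M σ = S at *
  generalize algebraMap K M a = A at *
  have hT : S * S⁻¹ = 1 := mul_inv_cancel₀ hS
  generalize S⁻¹ = T at *
  linear_combination T ^ 2 * hh - (h * T) * hT + (A * h * T - A - h * T - T ^ 2) * h2

theorem DIO : DIO_stmt := by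
  intro E K M _ _ _ _ _ h2E σ a ρ h hσ har hh
  have h2 : (2 : M) = 0 := by
    have e := congrArg (fun x => algebraMap K M (algebraMap E K x)) h2E
    simp only [map_ofNat, map_zero] at e
    exact e
  have hrel := DIO_rel h2 σ a _ h hσ har hh
  refine ⟨{ toFun := fun z => io a σ h z
            map_one' := ?_
            map_mul' := ?_
            map_zero' := ?_
            map_add' := ?_ }, fun z => rfl⟩
  · simp only [io, QuadraticAlgebra.re_one, QuadraticAlgebra.im_one, map_one, map_zero, zero_mul,
      add_zero]
  · intro z w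
    simp only [io, QuadraticAlgebra.re_mul, QuadraticAlgebra.im_mul, map_add, map_mul, map_one]
    linear_combination (-(algebraMap K M (algebraMap E K z.im)) *
      algebraMap K M (algebraMap E K w.im)) * hrel
  · simp [io]
  · intro z w
    simp only [io, QuadraticAlgebra.re_add, QuadraticAlgebra.im_add, map_add]
    ring

end Pool.Agent.ORE
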